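import Mathlib

set_option autoImplicit false

namespace Pool.Agent.Results.MP_46bd4a_lc.ZeroValue

open Set Filter

variable (X : Type) [TopologicalSpace X]

/-- countable open covers -/
def Cov (U : ℕ → Set X) : Prop := (∀ k, IsOpen (U k)) ∧ ⋃ k, U k = univ

/-- open large covers -/
def Large (U : ℕ → Set X) : Prop := (∀ k, IsOpen (U k)) ∧ ∀ x, {k | x ∈ U k}.Infinite

/-- the class `Γ_g` -/
def Gam (g : ℕ → ℕ) (V : ℕ → ℕ → Set X) : Prop :=
  (∀ n m, IsOpen (V n m)) ∧ ∀ x n, {m | x ∉ V n m}.encard ≤ g n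

/-- the selection principle `S₁(Γ_g, B)` -/
def S1 (g : ℕ → ℕ) (B : (ℕ → Set X) → Prop) : Prop :=
  ∀ V, Gam X g V → ∃ d : ℕ → ℕ, B fun n => V n (d n)

theorem result (g : ℕ → ℕ) (hg : Tendsto g atTop atTop) (h0 : ∃ n, g n = 0) :
    ∃ (X : Type) (_ : TopologicalSpace X), T2Space X ∧ S1 X g (Cov X) ∧ ¬ S1 X g (Large X) := by
  obtain ⟨n, hn⟩ := h0
  letI : TopologicalSpace (ℕ → ℕ) := ⊥
  haveI : DiscreteTopology (ℕ → ℕ) := ⟨rfl⟩
  refine ⟨ℕ → ℕ, ⊥, inferInstance, fun V hV => ⟨fun _ => 0, fun k => hV.1 k 0,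
    eq_univ_of_forall fun x => mem_iUnion.2 ⟨n, by_contra fun k => ?_⟩⟩, fun h => ?_⟩
  · have := hV.2 x n
    rw [hn, Nat.cast_zero, nonpos_iff_eq_zero, encard_eq_zero] at this
    exact this.subset k
  · obtain ⟨d, -, hd⟩ := h (fun k m => {x | g k = 0 ∨ x k ≠ m}) ⟨fun _ _ => isOpen_discrete _,
      fun x k => by
        rcases Nat.eq_zero_or_pos (g k) with l | l
        · simp [l]
        · refine (encard_le_encard (t := {x k}) fun m hm => ?_).trans (by
            rw [encard_singleton]; exact_mod_cast l)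
          simp only [mem_setOf_eq, not_or, not_not] at hm
          exact hm.2.symm⟩
    obtain ⟨N, hN⟩ := eventually_atTop.1 (hg.eventually_gt_atTop 0)
    exact hd d ((finite_lt_nat N).subset fun k hk => not_le.1 fun l =>
      hk.elim (hN k l).ne' fun m => m rfl)

end Pool.Agent.Results.MP_46bd4a_lc.ZeroValue
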